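import Mathlib
import Pool.Agent.H997R2.Steinitz

set_option autoImplicit false

open MeasureTheory ProbabilityTheory Filter Topology Finset

namespace Pool.Agent.Results.MP_0b8746_pr.SqrtLogUpperBound

/-! ### The model -/

/-- Completion times in a permutation flow shop, with zero boundary values:
`T i j` is the time of the operation, on machine `j + 1`, of the task processed in position `i + 1`,
and `completion T i j` is `C_{i,j}`, so `C_{i+1,j+1} = max (C_{i,j+1}, C_{i+1,j}) + T i j`. -/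
noncomputable def completion (T : ℕ → ℕ → ℝ) : ℕ → ℕ → ℝ
  | 0, _ => 0
  | _ + 1, 0 => 0
  | i + 1, j + 1 => max (completion T i (j + 1)) (completion T (i + 1) j) + T i j

/-- The operation times `t i j` of `n` tasks on `m` machines, listed in the order of the
permutation `π` and extended by zero. -/
noncomputable def ordered {n m : ℕ} (t : Fin n → Fin m → ℝ) (π : Equiv.Perm (Fin n)) (i j : ℕ) : ℝ :=
  if h : i < n ∧ j < m then t (π ⟨i, h.1⟩) ⟨j, h.2⟩ else 0

/-- The makespan `L^π_{m,n} = C_{n,m}` of the schedule `π`. -/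
noncomputable def makespan {n m : ℕ} (t : Fin n → Fin m → ℝ) (π : Equiv.Perm (Fin n)) : ℝ :=
  completion (ordered t π) n m

/-- The optimal makespan `L^*_{m,n}`: the minimum of the makespans of the `n!` schedules. -/
noncomputable def optMakespan {n m : ℕ} (t : Fin n → Fin m → ℝ) : ℝ :=
  ⨅ π : Equiv.Perm (Fin n), makespan t π

/-- The law of an `n × m` array of independent operation times with distribution `F`. -/
noncomputable def law (F : Measure ℝ) (m n : ℕ) : Measure (Fin n → Fin m → ℝ) :=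
  Measure.pi fun _ => Measure.pi fun _ => F

/-- `E[α^*_{m,n}] = E[L^*_{m,n} - (n + m - 1) τ]`, where `τ` is the mean of `F`. -/
noncomputable def expectedError (F : Measure ℝ) (m n : ℕ) : ℝ :=
  ∫ t, (optMakespan t - ((n : ℝ) + m - 1) * ∫ x, x ∂F) ∂(law F m n)

/-- `F` is a probability distribution on `[0, ∞)` with finite and positive variance. -/
structure IsTimeLaw (F : Measure ℝ) : Prop where
  prob : IsProbabilityMeasure F
  nonneg : ∀ᵐ x ∂F, 0 ≤ x
  memLp : MemLp (fun x : ℝ => x) 2 F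
  pos : 0 < Var[fun x : ℝ => x; F]

/-! ### Deterministic part -/

lemma completion_zero (T : ℕ → ℕ → ℝ) (j : ℕ) : completion T 0 j = 0 := by
  cases j <;> simp [completion]

lemma completion_zero' (T : ℕ → ℕ → ℝ) (i : ℕ) : completion T i 0 = 0 := by
  cases i <;> simp [completion]

lemma completion_succ (T : ℕ → ℕ → ℝ) (i j : ℕ) :
    completion T (i + 1) (j + 1) = max (completion T i (j + 1)) (completion T (i + 1) j) + T i j := by
  simp [completion]

/-- abstract bound on completion times -/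
lemma completion_le (T R : ℕ → ℕ → ℝ) (n m : ℕ) (D M : ℝ) (hD : 0 ≤ D) (hM : 0 ≤ M)
    (hT0 : ∀ i < n, ∀ j < m, 0 ≤ T i j)
    (hTR : ∀ i < n, ∀ j < m, T i j ≤ R i j) (hTM : ∀ i < n, ∀ j < m, T i j ≤ M)
    (hP : ∀ i ≤ n, ∀ j, j + 1 < m → ∑ k ∈ range i, R k j ≤ ∑ k ∈ range i, R k (j + 1) + D) :
    ∀ i ≤ n, ∀ j < m, completion T i (j + 1) ≤ ∑ k ∈ range i, R k j + j * (D + M) := by
  intro i
  induction i with
  | zero =>
    intro _ j hj
    rw [completion_zero]
    simp only [range_zero, sum_empty, zero_add]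
    positivity
  | succ i ih =>
    intro hi j
    induction j with
    | zero =>
      intro hj
      rw [completion_succ, completion_zero', sum_range_succ]
      have h1 := ih (by omega) 0 hj
      have h2 := hTR i (by omega) 0 hj
      have h3 : 0 ≤ ∑ k ∈ range i, R k 0 := sum_nonneg fun k hk => by
        have := Finset.mem_range.1 hk
        exact (hT0 k (by omega) 0 hj).trans (hTR k (by omega) 0 hj)
      simp only [Nat.cast_zero, zero_mul, add_zero] at h1 ⊢
      have : max (completion T i (0 + 1)) 0 ≤ ∑ k ∈ range i, R k 0 := max_le h1 h3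
      linarith
    | succ j jh =>
      intro hj
      rw [completion_succ]
      have h1 := ih (by omega) (j + 1) hj
      have h2 := jh (by omega)
      have h3 := hTR i (by omega) (j + 1) hj
      have h4 := hTM i (by omega) (j + 1) hj
      have h5 := hP (i + 1) (by omega) j hj
      rw [← max_add_add_right]
      refine max_le ?_ ?_
      · rw [sum_range_succ]; linarith
      · push_cast; linarith

/-- **Sevastyanov's bound.** The optimal makespan is at most the largest machine load plus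
`4 m² ` times the largest operation time. -/
lemma opt_le {n m : ℕ} (hn : 0 < n) (hm : 0 < m) (t : Fin n → Fin m → ℝ) (ht0 : ∀ i j, 0 ≤ t i j) :
    ∃ (j0 : Fin m) (i1 : Fin n) (j1 : Fin m),
      optMakespan t ≤ ∑ i, t i j0 + 5 * m ^ 2 * t i1 j1 := by
  have : Nonempty (Fin n) := ⟨⟨0, hn⟩⟩
  have : Nonempty (Fin m) := ⟨⟨0, hm⟩⟩
  obtain ⟨j0, hj0⟩ := Finite.exists_max (fun j : Fin m => ∑ i, t i j)
  obtain ⟨⟨i1, j1⟩, hij⟩ := Finite.exists_max (fun p : Fin n × Fin m => t p.1 p.2)
  refine ⟨j0, i1, j1, ?_⟩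
  set L := ∑ i, t i j0 with hL
  set M := t i1 j1 with hM
  have hnR : (0:ℝ) < n := by exact_mod_cast hn
  have hM0 : 0 ≤ M := ht0 _ _
  have htM : ∀ i j, t i j ≤ M := fun i j => hij (i, j)
  have hLM : L ≤ n * M := by
    calc L ≤ ∑ _i : Fin n, M := sum_le_sum fun i _ => htM i j0
      _ = n * M := by simp
  have hL0 : 0 ≤ L := sum_nonneg fun i _ => ht0 i j0
  -- centred vectors
  let r : Fin n → Fin m → ℝ := fun i j => t i j + (L - ∑ k, t k j) / n
  let u : Fin n → Fin m → ℝ := fun i j => r i j - L / n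
  have hLn : L / n ≤ M := by rw [div_le_iff₀ hnR]; linarith
  have hLn0 : 0 ≤ L / n := by positivity
  have hslack : ∀ j, 0 ≤ (L - ∑ k, t k j) / n := fun j => div_nonneg (by linarith [hj0 j]) hnR.le
  have hslack' : ∀ j, (L - ∑ k, t k j) / n ≤ L / n := fun j => by
    have : 0 ≤ ∑ k, t k j := sum_nonneg fun i _ => ht0 i j
    gcongr; linarith
  have hu : ∀ i j, |u i j| ≤ M := by
    intro i j
    have h1 := ht0 i j; have h2 := htM i j; have h3 := hslack j; have h4 := hslack' j
    rw [abs_le]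
    constructor <;> simp only [u, r] <;> linarith
  have hus : ∀ j, ∑ i, u i j = 0 := by
    intro j
    simp only [u, r]
    rw [sum_sub_distrib, sum_add_distrib, sum_const, sum_const, card_univ, Fintype.card_fin,
      nsmul_eq_mul, nsmul_eq_mul]
    field_simp
    ring
  obtain ⟨σ, hσ⟩ := Pool.Agent.H997R2.Stz.steinitz u M hM0 hu hus
  refine (ciInf_le (Set.finite_range _).bddBelow σ).trans ?_
  unfold makespan
  -- extended array
  let R : ℕ → ℕ → ℝ := fun i j => if h : i < n ∧ j < m then r (σ ⟨i, h.1⟩) ⟨j, h.2⟩ else 0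
  have hpre : ∀ i ≤ n, ∀ (j : ℕ) (hj : j < m), |∑ k ∈ range i, R k j - i * (L / n)| ≤ m * M := by
    intro i hi j hj
    have h1 := hσ i hi ⟨j, hj⟩
    have h2 : ∑ k ∈ univ.filter (fun k : Fin n => k.val < i), u (σ k) ⟨j, hj⟩ =
        ∑ k ∈ range i, (R k j - L / n) := by
      refine sum_bij (fun (k : Fin n) _ => k.val) ?_ ?_ ?_ ?_
      · intro k hk; simpa using hk
      · intro a _ b _ hab; exact Fin.ext hab
      · intro k hk
        have hk' := Finset.mem_range.1 hk
        exact ⟨⟨k, by omega⟩, by simpa using hk', rfl⟩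
      · intro k hk
        have : R k j = r (σ k) ⟨j, hj⟩ := by simp [R, hj]
        rw [this]
    rw [h2, sum_sub_distrib, sum_const, card_range, nsmul_eq_mul] at h1
    exact h1
  have hfull : ∑ k ∈ range n, R k (m - 1) = L := by
    have hj : m - 1 < m := by omega
    have h2 : ∑ k ∈ range n, R k (m - 1) = ∑ k : Fin n, r (σ k) ⟨m - 1, hj⟩ := by
      rw [← Fin.sum_univ_eq_sum_range]
      refine sum_congr rfl fun k _ => ?_
      simp [R, hj]
    rw [h2, Equiv.sum_comp σ (fun k => r k ⟨m - 1, hj⟩)]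
    have := hus ⟨m - 1, hj⟩
    simp only [u] at this
    rw [sum_sub_distrib, sum_const, card_univ, Fintype.card_fin, nsmul_eq_mul] at this
    have h5 : (n : ℝ) * (L / n) = L := by field_simp
    rw [h5] at this
    linarith
  have hmain := completion_le (ordered t σ) R n m (2 * m * M) M (by positivity) hM0 ?_ ?_ ?_ ?_ n le_rfl
    (m - 1) (by omega)
  · rw [Nat.sub_add_cancel hm, hfull] at hmain
    refine hmain.trans ?_
    have h1 : ((m - 1 : ℕ) : ℝ) ≤ m := by exact_mod_cast Nat.sub_le m 1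
    have h2 : (1 : ℝ) ≤ m := by exact_mod_cast hm
    have h3 : ((m - 1 : ℕ) : ℝ) * (2 * m * M + M) ≤ m * (2 * m * M + M) :=
      mul_le_mul_of_nonneg_right h1 (by positivity)
    have h4 : (m : ℝ) * M ≤ m ^ 2 * M := by
      apply mul_le_mul_of_nonneg_right _ hM0
      nlinarith
    nlinarith [mul_nonneg (sq_nonneg (m : ℝ)) hM0]
  · intro i hi j hj
    simp only [ordered, hi, hj, and_self, dite_true]
    exact ht0 _ _
  · intro i hi j hj
    simp only [ordered, R, hi, hj, and_self, dite_true, r]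
    have := hslack ⟨j, hj⟩
    linarith
  · intro i hi j hj
    simp only [ordered, hi, hj, and_self, dite_true]
    exact htM _ _
  · intro i hi j hj
    have h1 := abs_le.1 (hpre i hi j (by omega))
    have h2 := abs_le.1 (hpre i hi (j + 1) hj)
    linarith [h1.1, h1.2, h2.1, h2.2]


/-! ### Crude bounds, measurability, integrability -/

lemma completion_nonneg (T : ℕ → ℕ → ℝ) (hT : ∀ i j, 0 ≤ T i j) (i j : ℕ) : 0 ≤ completion T i j := by
  induction i generalizing j with
  | zero => rw [completion_zero]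
  | succ i ih =>
    cases j with
    | zero => rw [completion_zero']
    | succ j =>
      rw [completion_succ]
      have := hT i j
      have h2 : 0 ≤ max (completion T i (j + 1)) (completion T (i + 1) j) := le_max_of_le_left (ih _)
      linarith

lemma completion_le_sum (T : ℕ → ℕ → ℝ) (hT : ∀ i j, 0 ≤ T i j) (i j : ℕ) :
    completion T i j ≤ ∑ k ∈ range i, ∑ l ∈ range j, T k l := by
  induction i generalizing j with
  | zero => rw [completion_zero]; simp
  | succ i ih =>
    induction j with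
    | zero => rw [completion_zero']; simp
    | succ j jh =>
      rw [completion_succ, ← max_add_add_right]
      refine max_le ?_ ?_
      · rw [sum_range_succ]
        have h1 := ih (j + 1)
        have h2 : T i j ≤ ∑ l ∈ range (j + 1), T i l :=
          single_le_sum (fun l _ => hT i l) (self_mem_range_succ j)
        linarith
      · have h3 : ∑ k ∈ range (i + 1), ∑ l ∈ range (j + 1), T k l =
            ∑ k ∈ range (i + 1), ∑ l ∈ range j, T k l + ∑ k ∈ range (i + 1), T k j := by
          rw [← sum_add_distrib]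
          exact sum_congr rfl fun k _ => sum_range_succ _ _
        rw [h3]
        have h2 : T i j ≤ ∑ k ∈ range (i + 1), T k j :=
          single_le_sum (fun l _ => hT l j) (self_mem_range_succ i)
        linarith

lemma ordered_nonneg {n m : ℕ} {t : Fin n → Fin m → ℝ} (ht : ∀ i j, 0 ≤ t i j)
    (π : Equiv.Perm (Fin n)) (i j : ℕ) : 0 ≤ ordered t π i j := by
  unfold ordered
  split_ifs
  · exact ht _ _
  · exact le_rfl

lemma measurable_ordered {n m : ℕ} (π : Equiv.Perm (Fin n)) (i j : ℕ) :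
    Measurable (fun t : Fin n → Fin m → ℝ => ordered t π i j) := by
  unfold ordered
  by_cases h : i < n ∧ j < m
  · simp only [h, and_self, dite_true]
    fun_prop
  · simp only [h, dite_false]
    fun_prop

lemma measurable_completion {n m : ℕ} (π : Equiv.Perm (Fin n)) (i j : ℕ) :
    Measurable (fun t : Fin n → Fin m → ℝ => completion (ordered t π) i j) := by
  induction i generalizing j with
  | zero => simp only [completion_zero]; fun_prop
  | succ i ih =>
    induction j with
    | zero => simp only [completion_zero']; fun_prop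
    | succ j jh =>
      simp only [completion_succ]
      exact ((ih (j + 1)).max jh).add (measurable_ordered π i j)

lemma measurable_opt {n m : ℕ} : Measurable (fun t : Fin n → Fin m → ℝ => optMakespan t) := by
  unfold optMakespan makespan
  exact Measurable.iInf fun π => measurable_completion π n m

lemma opt_nonneg {n m : ℕ} {t : Fin n → Fin m → ℝ} (ht : ∀ i j, 0 ≤ t i j) : 0 ≤ optMakespan t :=
  le_ciInf fun π => completion_nonneg _ (ordered_nonneg ht π) n m

lemma opt_le_sum {n m : ℕ} {t : Fin n → Fin m → ℝ} (ht : ∀ i j, 0 ≤ t i j) :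
    optMakespan t ≤ ∑ i, ∑ j, t i j := by
  refine (ciInf_le (Set.finite_range _).bddBelow 1).trans ?_
  refine (completion_le_sum _ (ordered_nonneg ht 1) n m).trans (le_of_eq ?_)
  rw [← Fin.sum_univ_eq_sum_range (fun k => ∑ l ∈ range m, ordered t 1 k l) n]
  refine sum_congr rfl fun i _ => ?_
  rw [← Fin.sum_univ_eq_sum_range (fun l => ordered t 1 i l) m]
  refine sum_congr rfl fun j _ => ?_
  simp [ordered]

section Prob

variable {F : Measure ℝ} [IsProbabilityMeasure F] {m n : ℕ}

instance : IsProbabilityMeasure (law F m n) := by unfold law; infer_instance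

lemma mp_eval (i : Fin n) (j : Fin m) :
    MeasurePreserving (fun t : Fin n → Fin m → ℝ => t i j) (law F m n) F := by
  unfold law
  exact (measurePreserving_eval (fun _ : Fin m => F) j).comp
    (measurePreserving_eval (fun _ : Fin n => Measure.pi fun _ : Fin m => F) i)

lemma integrable_eval {g : ℝ → ℝ} (hg : Integrable g F) (i : Fin n) (j : Fin m) :
    Integrable (fun t : Fin n → Fin m → ℝ => g (t i j)) (law F m n) :=
  (mp_eval i j).integrable_comp_of_integrable hg

lemma integral_eval {g : ℝ → ℝ} (hg : AEStronglyMeasurable g F) (i : Fin n) (j : Fin m) :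
    ∫ t : Fin n → Fin m → ℝ, g (t i j) ∂(law F m n) = ∫ x, g x ∂F := by
  have h := (mp_eval (F := F) i j)
  have h2 : AEStronglyMeasurable g ((law F m n).map (fun t : Fin n → Fin m → ℝ => t i j)) := by
    rw [h.map_eq]; exact hg
  rw [← integral_map h.measurable.aemeasurable h2, h.map_eq]

lemma ae_nonneg (h : ∀ᵐ x ∂F, 0 ≤ x) : ∀ᵐ t ∂(law F m n), ∀ i j, 0 ≤ t i j := by
  rw [ae_all_iff]; intro i
  rw [ae_all_iff]; intro j
  exact (mp_eval i j).quasiMeasurePreserving.ae h

lemma integrable_opt (h : ∀ᵐ x ∂F, 0 ≤ x) (hi : Integrable (fun x : ℝ => x) F) :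
    Integrable (fun t : Fin n → Fin m → ℝ => optMakespan t) (law F m n) := by
  have hs : Integrable (fun t : Fin n → Fin m → ℝ => ∑ i, ∑ j, t i j) (law F m n) :=
    integrable_finsetSum _ fun i _ => integrable_finsetSum _ fun j _ => integrable_eval hi i j
  refine hs.mono' measurable_opt.aestronglyMeasurable ?_
  filter_upwards [ae_nonneg h] with t ht
  rw [Real.norm_of_nonneg (opt_nonneg ht)]
  exact opt_le_sum ht

/-! ### Truncation -/

/-- the bounded part -/
noncomputable def lo (K x : ℝ) : ℝ := max (min x K) 0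

/-- the large part -/
noncomputable def hi (K x : ℝ) : ℝ := max (x - K) 0

lemma lo_add_hi {K x : ℝ} (hK : 0 ≤ K) (hx : 0 ≤ x) : lo K x + hi K x = x := by
  unfold lo hi
  rcases le_total x K with h | h
  · rw [min_eq_left h, max_eq_left hx, max_eq_right (by linarith)]; ring
  · rw [min_eq_right h, max_eq_left hK, max_eq_left (by linarith)]; ring

lemma lo_mem {K : ℝ} (hK : 0 ≤ K) (x : ℝ) : 0 ≤ lo K x ∧ lo K x ≤ K :=
  ⟨le_max_right _ _, max_le (min_le_right _ _) hK⟩

lemma measurable_lo (K : ℝ) : Measurable (lo K) := by unfold lo; fun_prop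

lemma measurable_hi (K : ℝ) : Measurable (hi K) := by unfold hi; fun_prop

lemma lo_lip {K : ℝ} (x y : ℝ) : |lo K x - lo K y| ≤ |x - y| := by
  unfold lo
  have h1 : |max (min x K) 0 - max (min y K) 0| ≤ |min x K - min y K| := abs_max_sub_max_le_abs _ _ _
  have h2 : |min x K - min y K| ≤ |x - y| := by
    have := abs_min_sub_min_le_max x K y K
    simpa using this
  exact h1.trans h2

lemma hi_abs {K : ℝ} (hK : 0 ≤ K) (x : ℝ) : |hi K x| ≤ |x| := by
  unfold hi
  rw [abs_of_nonneg (le_max_right _ _)]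
  refine max_le ?_ (abs_nonneg _)
  linarith [le_abs_self x]

/-- elementary exponential bound -/
lemma exp_le_quad {y : ℝ} (hy : |y| ≤ 1) : Real.exp y ≤ 1 + y + y ^ 2 / 2 + |y| * y ^ 2 := by
  have h := Real.exp_bound hy (n := 3) (by norm_num)
  have h2 := (abs_le.1 h).2
  simp only [sum_range_succ, range_zero, sum_empty, Nat.factorial] at h2
  norm_num at h2
  have h3 : |y| ^ 3 = |y| * y ^ 2 := by rw [pow_succ, sq_abs]; ring
  rw [h3] at h2
  have : 0 ≤ |y| * y ^ 2 := by positivity
  nlinarith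

/-- moment generating function of the centred bounded part -/
lemma mgf_lo (hL2 : MemLp (fun x : ℝ => x) 2 F) {K s : ℝ} (hK : 0 ≤ K) (hs : 0 ≤ s) (hsK : s * K ≤ 1) :
    ∫ x, Real.exp (s * (lo K x - ∫ y, lo K y ∂F)) ∂F ≤
      Real.exp ((s ^ 2 / 2 + s ^ 3 * K) * Var[fun x : ℝ => x; F]) := by
  set e := ∫ y, lo K y ∂F with he
  have hlo_int : Integrable (lo K) F := by
    refine (integrable_const K).mono' (measurable_lo K).aestronglyMeasurable (ae_of_all _ fun x => ?_)
    rw [Real.norm_of_nonneg (lo_mem hK x).1]; exact (lo_mem hK x).2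
  have he0 : 0 ≤ e := integral_nonneg fun x => (lo_mem hK x).1
  have heK : e ≤ K := by
    have : e ≤ ∫ _x, K ∂F := integral_mono hlo_int (integrable_const K) fun x => (lo_mem hK x).2
    simpa using this
  have hZ : ∀ x, |lo K x - e| ≤ K := fun x => by
    have := lo_mem hK x
    rw [abs_le]; constructor <;> linarith
  -- variance of the bounded part
  have hlo_L2 : MemLp (lo K) 2 F := by
    refine MemLp.of_bound (measurable_lo K).aestronglyMeasurable K (ae_of_all _ fun x => ?_)
    rw [Real.norm_of_nonneg (lo_mem hK x).1]; exact (lo_mem hK x).2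
  have hidint : Integrable (fun x : ℝ => x) F := hL2.integrable (by norm_num)
  set τ := ∫ x, x ∂F with hτ
  have hvar : ∫ x, (lo K x - e) ^ 2 ∂F ≤ Var[fun x : ℝ => x; F] := by
    rw [← variance_eq_integral (measurable_lo K).aemeasurable,
      ← variance_sub_const (measurable_lo K).aestronglyMeasurable (lo K τ)]
    refine (variance_le_expectation_sq ?_).trans ?_
    · exact ((measurable_lo K).sub_const _).aestronglyMeasurable
    · rw [variance_eq_integral (by fun_prop)]
      refine integral_mono ?_ ?_ fun x => ?_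
      · exact (hlo_L2.sub (memLp_const _)).integrable_sq
      · exact (hL2.sub (memLp_const _)).integrable_sq
      · show (lo K x - lo K τ) ^ 2 ≤ (x - τ) ^ 2
        rw [← sq_abs (lo K x - lo K τ), ← sq_abs (x - τ)]
        exact pow_le_pow_left₀ (abs_nonneg _) (lo_lip x τ) 2
  have hsqint : Integrable (fun x => (lo K x - e) ^ 2) F := (hlo_L2.sub (memLp_const _)).integrable_sq
  have hpt : ∀ x, Real.exp (s * (lo K x - e)) ≤ 1 + s * (lo K x - e) +
      (s ^ 2 / 2 + s ^ 3 * K) * (lo K x - e) ^ 2 := by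
    intro x
    have h1 : |s * (lo K x - e)| ≤ s * K := by
      rw [abs_mul, abs_of_nonneg hs]
      exact mul_le_mul_of_nonneg_left (hZ x) hs
    refine (exp_le_quad (h1.trans hsK)).trans ?_
    have h2 : |s * (lo K x - e)| * (s * (lo K x - e)) ^ 2 ≤ (s * K) * (s * (lo K x - e)) ^ 2 :=
      mul_le_mul_of_nonneg_right h1 (sq_nonneg _)
    nlinarith
  have hint0 : Integrable (fun x => s * (lo K x - e)) F :=
    (hlo_int.sub (integrable_const _)).const_mul _
  have hint1 : Integrable (fun x => 1 + s * (lo K x - e)) F := (integrable_const _).add hint0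
  have hint2 : Integrable (fun x => (s ^ 2 / 2 + s ^ 3 * K) * (lo K x - e) ^ 2) F := hsqint.const_mul _
  have hexp_int : Integrable (fun x => Real.exp (s * (lo K x - e))) F := by
    refine (integrable_const (Real.exp (s * K))).mono'
      (((measurable_lo K).sub_const _).const_mul _).exp.aestronglyMeasurable (ae_of_all _ fun x => ?_)
    rw [Real.norm_of_nonneg (Real.exp_pos _).le]
    apply Real.exp_le_exp.2
    exact mul_le_mul_of_nonneg_left ((le_abs_self _).trans (hZ x)) hs
  calc ∫ x, Real.exp (s * (lo K x - e)) ∂F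
      ≤ ∫ x, (1 + s * (lo K x - e) + (s ^ 2 / 2 + s ^ 3 * K) * (lo K x - e) ^ 2) ∂F :=
        integral_mono hexp_int (hint1.add hint2) hpt
    _ = 1 + (s ^ 2 / 2 + s ^ 3 * K) * ∫ x, (lo K x - e) ^ 2 ∂F := by
        rw [integral_add hint1 hint2, integral_add (integrable_const _) hint0, integral_const_mul,
          integral_const_mul, integral_sub hlo_int (integrable_const _)]
        simp [← he]
    _ ≤ 1 + (s ^ 2 / 2 + s ^ 3 * K) * Var[fun x : ℝ => x; F] := by
        have : 0 ≤ s ^ 2 / 2 + s ^ 3 * K := by positivity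
        nlinarith [mul_le_mul_of_nonneg_left hvar this]
    _ ≤ _ := by
        have := Real.add_one_le_exp ((s ^ 2 / 2 + s ^ 3 * K) * Var[fun x : ℝ => x; F])
        linarith

/-- centred sum of bounded parts on machine `j` -/
noncomputable def sumLo (F : Measure ℝ) (K : ℝ) (j : Fin m) (t : Fin n → Fin m → ℝ) : ℝ :=
  ∑ i, (lo K (t i j) - ∫ y, lo K y ∂F)

/-- centred sum of large parts on machine `j` -/
noncomputable def sumHi (F : Measure ℝ) (K : ℝ) (j : Fin m) (t : Fin n → Fin m → ℝ) : ℝ :=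
  ∑ i, (hi K (t i j) - ∫ y, hi K y ∂F)

lemma measurable_sumLo (K : ℝ) (j : Fin m) : Measurable (sumLo (n := n) F K j) := by
  unfold sumLo
  refine Finset.measurable_sum _ fun i _ => ?_
  exact ((measurable_lo K).comp (by fun_prop)).sub_const _

lemma integrable_exp_sumLo {K s : ℝ} (hK : 0 ≤ K) (hs : 0 ≤ s) (j : Fin m) :
    Integrable (fun t : Fin n → Fin m → ℝ => Real.exp (s * sumLo F K j t)) (law F m n) := by
  have hlo_int : Integrable (lo K) F := by
    refine (integrable_const K).mono' (measurable_lo K).aestronglyMeasurable (ae_of_all _ fun x => ?_)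
    rw [Real.norm_of_nonneg (lo_mem hK x).1]; exact (lo_mem hK x).2
  refine (integrable_const (Real.exp (s * (n * K)))).mono'
    ((measurable_sumLo K j).const_mul s).exp.aestronglyMeasurable (ae_of_all _ fun t => ?_)
  rw [Real.norm_of_nonneg (Real.exp_pos _).le]
  apply Real.exp_le_exp.2
  refine mul_le_mul_of_nonneg_left ?_ hs
  unfold sumLo
  have he0 : 0 ≤ ∫ y, lo K y ∂F := integral_nonneg fun x => (lo_mem hK x).1
  calc ∑ i, (lo K (t i j) - ∫ y, lo K y ∂F) ≤ ∑ _i : Fin n, K :=
        sum_le_sum fun i _ => by linarith [(lo_mem hK (t i j)).2]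
    _ = n * K := by simp

lemma integral_exp_sumLo (hL2 : MemLp (fun x : ℝ => x) 2 F) {K s : ℝ} (hK : 0 ≤ K) (hs : 0 ≤ s)
    (hsK : s * K ≤ 1) (j : Fin m) :
    ∫ t : Fin n → Fin m → ℝ, Real.exp (s * sumLo F K j t) ∂(law F m n) ≤
      Real.exp (n * ((s ^ 2 / 2 + s ^ 3 * K) * Var[fun x : ℝ => x; F])) := by
  have h1 : ∀ t : Fin n → Fin m → ℝ, Real.exp (s * sumLo F K j t) =
      ∏ i, Real.exp (s * (lo K (t i j) - ∫ y, lo K y ∂F)) := by
    intro t
    rw [← Real.exp_sum]
    unfold sumLo
    rw [mul_sum]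
  simp_rw [h1]
  unfold law
  rw [integral_fintype_prod_eq_pow (ι := Fin n) (fun x : Fin m → ℝ => Real.exp (s * (lo K (x j) - ∫ y, lo K y ∂F))),
    Fintype.card_fin]
  have h2 : ∫ x : Fin m → ℝ, Real.exp (s * (lo K (x j) - ∫ y, lo K y ∂F)) ∂(Measure.pi fun _ => F) =
      ∫ x, Real.exp (s * (lo K x - ∫ y, lo K y ∂F)) ∂F := by
    have h := measurePreserving_eval (fun _ : Fin m => F) j
    have hm : Measurable (fun x => Real.exp (s * (lo K x - ∫ y, lo K y ∂F))) :=
      (((measurable_lo K).sub_const _).const_mul _).exp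
    have := integral_map (μ := Measure.pi fun _ : Fin m => F) h.measurable.aemeasurable
      (f := fun x => Real.exp (s * (lo K x - ∫ y, lo K y ∂F))) hm.aestronglyMeasurable
    rw [h.map_eq] at this
    exact this.symm
  rw [h2, Real.exp_nat_mul]
  exact pow_le_pow_left₀ (integral_nonneg fun x => (Real.exp_pos _).le) (mgf_lo hL2 hK hs hsK) n

lemma hi_memLp (hL2 : MemLp (fun x : ℝ => x) 2 F) {K : ℝ} (hK : 0 ≤ K) : MemLp (hi K) 2 F :=
  hL2.mono (measurable_hi K).aestronglyMeasurable (ae_of_all _ fun x => by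
    simpa using hi_abs hK x)

lemma integral_sumHi_sq (hL2 : MemLp (fun x : ℝ => x) 2 F) {K : ℝ} (hK : 0 ≤ K) (j : Fin m) :
    Integrable (fun t : Fin n → Fin m → ℝ => (sumHi F K j t) ^ 2) (law F m n) ∧
    ∫ t : Fin n → Fin m → ℝ, (sumHi F K j t) ^ 2 ∂(law F m n) ≤ n * ∫ x, (hi K x) ^ 2 ∂F := by
  have hh := hi_memLp hL2 hK
  have hhi : Integrable (hi K) F := hh.integrable (by norm_num)
  set e := ∫ y, hi K y ∂F with he
  let X : Fin n → (Fin m → ℝ) → ℝ := fun _ x => hi K (x j) - e
  have hmp := measurePreserving_eval (fun _ : Fin m => F) j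
  have hX : ∀ i, MemLp (X i) 2 (Measure.pi fun _ : Fin m => F) := fun i =>
    (hh.comp_measurePreserving hmp).sub (memLp_const _)
  have hXi : ∀ i : Fin n, MemLp (fun t : Fin n → Fin m → ℝ => X i (t i)) 2 (law F m n) := fun i =>
    (hX i).comp_measurePreserving (measurePreserving_eval (fun _ : Fin n => Measure.pi fun _ : Fin m => F) i)
  have hsum : MemLp (fun t : Fin n → Fin m → ℝ => sumHi F K j t) 2 (law F m n) := by
    have := memLp_finsetSum' univ fun i _ => hXi i
    convert this using 1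
    ext t
    simp [sumHi, X, he]
  refine ⟨hsum.integrable_sq, ?_⟩
  have hvs := variance_sum_pi (μ := fun _ : Fin n => (Measure.pi fun _ : Fin m => F)) hX
  have hie : Integrable (fun x => hi K x - e) F := hhi.sub (integrable_const e)
  have hmean : ∫ t, sumHi F K j t ∂(law F m n) = 0 := by
    show ∫ t, ∑ i, (fun x => hi K x - e) (t i j) ∂(law F m n) = 0
    rw [integral_finsetSum _ fun i _ => integrable_eval hie i j]
    refine sum_eq_zero fun i _ => ?_
    rw [integral_eval hie.aestronglyMeasurable i j, integral_sub hhi (integrable_const _)]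
    simp [← he]
  have h1 : ∫ t, (sumHi F K j t) ^ 2 ∂(law F m n) = Var[fun t => sumHi F K j t; law F m n] := by
    rw [variance_eq_integral hsum.aestronglyMeasurable.aemeasurable, hmean]
    simp
  have h2 : Var[fun t => sumHi F K j t; law F m n] = ∑ i, Var[X i; Measure.pi fun _ : Fin m => F] := by
    rw [← hvs]
    unfold law
    congr 1
    ext t
    simp [sumHi, X, he]
  rw [h1, h2]
  have h3 : ∀ i, Var[X i; Measure.pi fun _ : Fin m => F] ≤ ∫ x, (hi K x) ^ 2 ∂F := by
    intro i
    have hm : AEStronglyMeasurable (fun x : Fin m → ℝ => hi K (x j)) (Measure.pi fun _ : Fin m => F) :=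
      (hh.comp_measurePreserving hmp).aestronglyMeasurable
    show Var[fun x => hi K (x j) - e; Measure.pi fun _ : Fin m => F] ≤ _
    rw [variance_sub_const hm]
    refine (variance_le_expectation_sq hm).trans (le_of_eq ?_)
    have := integral_map (μ := Measure.pi fun _ : Fin m => F) hmp.measurable.aemeasurable
      (f := fun x => (hi K x) ^ 2) ((measurable_hi K).pow_const 2).aestronglyMeasurable
    rw [hmp.map_eq] at this
    rw [this]
    rfl
  calc ∑ i, Var[X i; Measure.pi fun _ : Fin m => F] ≤ ∑ _i : Fin n, ∫ x, (hi K x) ^ 2 ∂F :=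
        sum_le_sum fun i _ => h3 i
    _ = _ := by simp

/-- large parts have small second moment -/
lemma exists_K (hL2 : MemLp (fun x : ℝ => x) 2 F) {η : ℝ} (hη : 0 < η) :
    ∃ K : ℝ, 0 ≤ K ∧ ∫ x, (hi K x) ^ 2 ∂F ≤ η := by
  have hsq : Integrable (fun x : ℝ => x ^ 2) F := hL2.integrable_sq
  have hlim : Tendsto (fun k : ℕ => ∫ x, (hi (k : ℝ) x) ^ 2 ∂F) atTop (𝓝 (∫ _x, (0 : ℝ) ∂F)) := by
    refine tendsto_integral_of_dominated_convergence (fun x => x ^ 2)
      (fun k => ((measurable_hi (k : ℝ)).pow_const 2).aestronglyMeasurable) hsq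
      (fun k => ae_of_all _ fun x => ?_) (ae_of_all _ fun x => ?_)
    · rw [Real.norm_of_nonneg (sq_nonneg _), ← sq_abs, ← sq_abs x]
      exact pow_le_pow_left₀ (abs_nonneg _) (hi_abs (Nat.cast_nonneg k) x) 2
    · refine tendsto_const_nhds.congr' ?_
      obtain ⟨k0, hk0⟩ := exists_nat_ge x
      filter_upwards [eventually_ge_atTop k0] with k hk
      have : x - (k : ℝ) ≤ 0 := by
        have : (k0 : ℝ) ≤ k := by exact_mod_cast hk
        linarith
      simp [hi, max_eq_right this]
  rw [integral_zero] at hlim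
  obtain ⟨k, hk⟩ := (hlim.eventually_lt_const hη).exists
  exact ⟨k, Nat.cast_nonneg k, hk.le⟩

/-- pointwise upper bound -/
lemma opt_le_point {K s μ l : ℝ} (hK : 0 ≤ K) (hs : 0 < s) (hl : 0 < l) (hn : 0 < n) (hm : 0 < m)
    (hL2 : MemLp (fun x : ℝ => x) 2 F) (hF : ∀ᵐ x ∂F, 0 ≤ x)
    {t : Fin n → Fin m → ℝ} (ht : ∀ i j, 0 ≤ t i j) :
    optMakespan t ≤ n * (∫ x, x ∂F) + (μ + ((∑ j, Real.exp (s * sumLo F K j t) * Real.exp (-(s * μ))) - 1) / s)
      + (l + (∑ j, (sumHi F K j t) ^ 2) / (4 * l))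
      + 5 * m ^ 2 * (K + (l + (∑ i, ∑ j, (hi K (t i j)) ^ 2) / (4 * l))) := by
  obtain ⟨j0, i1, j1, h⟩ := opt_le hn hm t ht
  have hlo_int : Integrable (lo K) F := by
    refine (integrable_const K).mono' (measurable_lo K).aestronglyMeasurable (ae_of_all _ fun x => ?_)
    rw [Real.norm_of_nonneg (lo_mem hK x).1]; exact (lo_mem hK x).2
  have hhi : Integrable (hi K) F := (hi_memLp hL2 hK).integrable (by norm_num)
  have hmean : ∫ x, x ∂F = ∫ y, lo K y ∂F + ∫ y, hi K y ∂F := by
    rw [← integral_add hlo_int hhi]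
    refine integral_congr_ae ?_
    filter_upwards [hF] with x hx
    exact (lo_add_hi hK hx).symm
  have hload : ∑ i, t i j0 = n * (∫ x, x ∂F) + sumLo F K j0 t + sumHi F K j0 t := by
    unfold sumLo sumHi
    rw [hmean, sum_sub_distrib, sum_sub_distrib, sum_const, sum_const, card_univ, Fintype.card_fin,
      nsmul_eq_mul, nsmul_eq_mul]
    have : ∑ i, t i j0 = ∑ i, lo K (t i j0) + ∑ i, hi K (t i j0) := by
      rw [← sum_add_distrib]
      exact sum_congr rfl fun i _ => (lo_add_hi hK (ht i j0)).symm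
    rw [this]; ring
  have hA : sumLo F K j0 t ≤ μ + ((∑ j, Real.exp (s * sumLo F K j t) * Real.exp (-(s * μ))) - 1) / s := by
    have h1 : Real.exp (s * (sumLo F K j0 t - μ)) ≤
        ∑ j, Real.exp (s * sumLo F K j t) * Real.exp (-(s * μ)) := by
      have h2 : Real.exp (s * (sumLo F K j0 t - μ)) =
          Real.exp (s * sumLo F K j0 t) * Real.exp (-(s * μ)) := by
        rw [← Real.exp_add]; congr 1; ring
      rw [h2]
      exact single_le_sum (f := fun j => Real.exp (s * sumLo F K j t) * Real.exp (-(s * μ)))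
        (fun j _ => by positivity) (mem_univ j0)
    have h3 := Real.add_one_le_exp (s * (sumLo F K j0 t - μ))
    have h4 : sumLo F K j0 t - μ ≤
        ((∑ j, Real.exp (s * sumLo F K j t) * Real.exp (-(s * μ))) - 1) / s := by
      rw [le_div_iff₀ hs]; linarith
    linarith
  have amgm : ∀ y : ℝ, y ≤ l + y ^ 2 / (4 * l) := by
    intro y
    have : y * (4 * l) ≤ l * (4 * l) + y ^ 2 := by nlinarith [sq_nonneg (y - 2 * l)]
    have h2 : l + y ^ 2 / (4 * l) = (l * (4 * l) + y ^ 2) / (4 * l) := by field_simp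
    rw [h2, le_div_iff₀ (by positivity)]; exact this
  have hB : sumHi F K j0 t ≤ l + (∑ j, (sumHi F K j t) ^ 2) / (4 * l) := by
    refine (amgm _).trans ?_
    have : (sumHi F K j0 t) ^ 2 ≤ ∑ j, (sumHi F K j t) ^ 2 :=
      single_le_sum (f := fun j => (sumHi F K j t) ^ 2) (fun j _ => sq_nonneg _) (mem_univ j0)
    gcongr
  have hM : t i1 j1 ≤ K + (l + (∑ i, ∑ j, (hi K (t i j)) ^ 2) / (4 * l)) := by
    have h1 : t i1 j1 ≤ K + hi K (t i1 j1) := by
      have := le_max_left (t i1 j1 - K) 0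
      unfold hi; linarith
    have h2 := amgm (hi K (t i1 j1))
    have h3 : (hi K (t i1 j1)) ^ 2 ≤ ∑ i, ∑ j, (hi K (t i j)) ^ 2 := by
      refine le_trans ?_ (single_le_sum (f := fun i => ∑ j, (hi K (t i j)) ^ 2)
        (fun i _ => sum_nonneg fun j _ => sq_nonneg _) (mem_univ i1))
      exact single_le_sum (f := fun j => (hi K (t i1 j)) ^ 2) (fun j _ => sq_nonneg _) (mem_univ j1)
    have h4 : (hi K (t i1 j1)) ^ 2 / (4 * l) ≤ (∑ i, ∑ j, (hi K (t i j)) ^ 2) / (4 * l) := by gcongr
    linarith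
  have h5 : 5 * (m : ℝ) ^ 2 * t i1 j1 ≤ 5 * m ^ 2 * (K + (l + (∑ i, ∑ j, (hi K (t i j)) ^ 2) / (4 * l))) :=
    mul_le_mul_of_nonneg_left hM (by positivity)
  rw [hload] at h
  linarith

/-- upper bound in mean -/
lemma mean_opt_le {K s l : ℝ} (hK : 0 ≤ K) (hs : 0 < s) (hsK : s * K ≤ 1) (hl : 0 < l) (hn : 0 < n)
    (hm : 0 < m) (hL2 : MemLp (fun x : ℝ => x) 2 F) (hF : ∀ᵐ x ∂F, 0 ≤ x) :
    ∫ t, optMakespan t ∂(law F m n) ≤ n * (∫ x, x ∂F) +
      (Real.log m / s + n * ((s / 2 + s ^ 2 * K) * Var[fun x : ℝ => x; F]))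
      + (l + m * n * (∫ x, (hi K x) ^ 2 ∂F) / (4 * l))
      + 5 * m ^ 2 * (K + (l + m * n * (∫ x, (hi K x) ^ 2 ∂F) / (4 * l))) := by
  set v := Var[fun x : ℝ => x; F] with hv
  set w := ∫ x, (hi K x) ^ 2 ∂F with hw
  set ψ := n * ((s ^ 2 / 2 + s ^ 3 * K) * v) with hψ
  set μ := (Real.log m + ψ) / s with hμ
  have hmR : (0:ℝ) < m := by exact_mod_cast hm
  have hid : Integrable (fun x : ℝ => x) F := hL2.integrable (by norm_num)
  have i1 : ∀ j, Integrable (fun t : Fin n → Fin m → ℝ => Real.exp (s * sumLo F K j t) * Real.exp (-(s * μ)))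
      (law F m n) := fun j => (integrable_exp_sumLo hK hs.le j).mul_const _
  have i1' : Integrable (fun t : Fin n → Fin m → ℝ =>
      ∑ j, Real.exp (s * sumLo F K j t) * Real.exp (-(s * μ))) (law F m n) :=
    integrable_finsetSum _ fun j _ => i1 j
  have i1d : Integrable (fun t : Fin n → Fin m → ℝ =>
      ((∑ j, Real.exp (s * sumLo F K j t) * Real.exp (-(s * μ))) - 1) / s) (law F m n) :=
    (i1'.sub (integrable_const _)).div_const _
  have i1s : Integrable (fun t : Fin n → Fin m → ℝ => μ +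
      ((∑ j, Real.exp (s * sumLo F K j t) * Real.exp (-(s * μ))) - 1) / s) (law F m n) :=
    (integrable_const _).add i1d
  have i2 : ∀ j, Integrable (fun t : Fin n → Fin m → ℝ => (sumHi F K j t) ^ 2) (law F m n) :=
    fun j => (integral_sumHi_sq hL2 hK j).1
  have i2' : Integrable (fun t : Fin n → Fin m → ℝ => ∑ j, (sumHi F K j t) ^ 2) (law F m n) :=
    integrable_finsetSum _ fun j _ => i2 j
  have i2s : Integrable (fun t : Fin n → Fin m → ℝ => l + (∑ j, (sumHi F K j t) ^ 2) / (4 * l))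
      (law F m n) := (integrable_const _).add (i2'.div_const _)
  have hh2 : Integrable (fun x => (hi K x) ^ 2) F := (hi_memLp hL2 hK).integrable_sq
  have i3' : Integrable (fun t : Fin n → Fin m → ℝ => ∑ i, ∑ j, (hi K (t i j)) ^ 2) (law F m n) :=
    integrable_finsetSum _ fun i _ => integrable_finsetSum _ fun j _ => integrable_eval hh2 i j
  have i3d : Integrable (fun t : Fin n → Fin m → ℝ => l + (∑ i, ∑ j, (hi K (t i j)) ^ 2) / (4 * l))
      (law F m n) := (integrable_const _).add (i3'.div_const _)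
  have i3e : Integrable (fun t : Fin n → Fin m → ℝ => K + (l + (∑ i, ∑ j, (hi K (t i j)) ^ 2) / (4 * l)))
      (law F m n) := (integrable_const _).add i3d
  have i3s : Integrable (fun t : Fin n → Fin m → ℝ => 5 * (m : ℝ) ^ 2 * (K + (l + (∑ i, ∑ j, (hi K (t i j)) ^ 2) / (4 * l))))
      (law F m n) := i3e.const_mul _
  have e1 : ∫ t : Fin n → Fin m → ℝ, (μ +
      ((∑ j, Real.exp (s * sumLo F K j t) * Real.exp (-(s * μ))) - 1) / s) ∂(law F m n) ≤
      Real.log m / s + n * ((s / 2 + s ^ 2 * K) * v) := by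
    have h0 : ∫ t : Fin n → Fin m → ℝ, ((∑ j, Real.exp (s * sumLo F K j t) * Real.exp (-(s * μ))) - 1) / s
        ∂(law F m n) = (∑ j : Fin m, ∫ t : Fin n → Fin m → ℝ,
          Real.exp (s * sumLo F K j t) * Real.exp (-(s * μ)) ∂(law F m n) - 1) / s := by
      rw [integral_div, integral_sub i1' (integrable_const _), integral_finsetSum _ fun j _ => i1 j]
      simp
    rw [integral_add (integrable_const _) i1d, h0]
    have h1 : ∀ j : Fin m, ∫ t : Fin n → Fin m → ℝ, Real.exp (s * sumLo F K j t) * Real.exp (-(s * μ)) ∂(law F m n)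
        ≤ 1 / m := by
      intro j
      rw [integral_mul_const]
      have h2 := integral_exp_sumLo (n := n) (m := m) hL2 hK hs.le hsK j
      have h3 : Real.exp (-(s * μ)) = Real.exp (-ψ) / m := by
        have : s * μ = Real.log m + ψ := by rw [hμ]; field_simp
        rw [this, neg_add, Real.exp_add, Real.exp_neg (Real.log m), Real.exp_log hmR]
        field_simp
      rw [h3]
      calc _ ≤ Real.exp ψ * (Real.exp (-ψ) / m) := mul_le_mul_of_nonneg_right h2 (by positivity)
        _ = 1 / m := by rw [← mul_div_assoc, ← Real.exp_add]; simp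
    have h4 : ∑ j : Fin m, ∫ t : Fin n → Fin m → ℝ, Real.exp (s * sumLo F K j t) * Real.exp (-(s * μ)) ∂(law F m n)
        ≤ 1 := by
      calc _ ≤ ∑ _j : Fin m, (1 : ℝ) / m := sum_le_sum fun j _ => h1 j
        _ = 1 := by simp; field_simp
    have h5 : μ = Real.log m / s + n * ((s / 2 + s ^ 2 * K) * v) := by
      rw [hμ, hψ]; field_simp
    simp only [integral_const, probReal_univ, smul_eq_mul, one_mul]
    have h6 : (∑ j : Fin m, ∫ t : Fin n → Fin m → ℝ, Real.exp (s * sumLo F K j t) * Real.exp (-(s * μ)) ∂(law F m n)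
        - 1) / s ≤ 0 := div_nonpos_of_nonpos_of_nonneg (by linarith) hs.le
    linarith
  have e2 : ∫ t : Fin n → Fin m → ℝ, (l + (∑ j, (sumHi F K j t) ^ 2) / (4 * l)) ∂(law F m n) ≤
      l + m * n * w / (4 * l) := by
    rw [integral_add (integrable_const _) (i2'.div_const _), integral_div, integral_finsetSum _ fun j _ => i2 j]
    have h1 : ∑ j : Fin m, ∫ t : Fin n → Fin m → ℝ, (sumHi F K j t) ^ 2 ∂(law F m n) ≤ m * n * w := by
      calc _ ≤ ∑ _j : Fin m, (n * w : ℝ) := sum_le_sum fun j _ => (integral_sumHi_sq hL2 hK j).2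
        _ = _ := by simp; ring
    simp only [integral_const, probReal_univ, smul_eq_mul, one_mul]
    have h2 : (∑ j : Fin m, ∫ t : Fin n → Fin m → ℝ, (sumHi F K j t) ^ 2 ∂(law F m n)) / (4 * l) ≤
        m * n * w / (4 * l) := by gcongr
    linarith
  have e3 : ∫ t : Fin n → Fin m → ℝ, 5 * (m : ℝ) ^ 2 * (K + (l + (∑ i, ∑ j, (hi K (t i j)) ^ 2) / (4 * l))) ∂(law F m n) =
      5 * m ^ 2 * (K + (l + m * n * w / (4 * l))) := by
    rw [integral_const_mul, integral_add (integrable_const _) i3d,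
      integral_add (integrable_const _) (i3'.div_const _), integral_div,
      integral_finsetSum _ fun i _ => integrable_finsetSum _ fun j _ => integrable_eval hh2 i j]
    have h1 : ∀ i : Fin n, ∫ t : Fin n → Fin m → ℝ, ∑ j, (hi K (t i j)) ^ 2 ∂(law F m n) = m * w := by
      intro i
      rw [integral_finsetSum _ fun j _ => integrable_eval hh2 i j]
      have h2 : ∀ j : Fin m, ∫ t : Fin n → Fin m → ℝ, (hi K (t i j)) ^ 2 ∂(law F m n) = w := fun j =>
        integral_eval (g := fun x => (hi K x) ^ 2) hh2.aestronglyMeasurable i j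
      rw [sum_congr rfl fun j _ => h2 j]; simp
    rw [sum_congr rfl fun i _ => h1 i]
    simp only [integral_const, probReal_univ, smul_eq_mul, one_mul, sum_const, card_univ, Fintype.card_fin,
      nsmul_eq_mul]
    ring
  have j1 : Integrable (fun t : Fin n → Fin m → ℝ => n * (∫ x, x ∂F) + (μ +
      ((∑ j, Real.exp (s * sumLo F K j t) * Real.exp (-(s * μ))) - 1) / s)) (law F m n) :=
    (integrable_const _).add i1s
  have j2 : Integrable (fun t : Fin n → Fin m → ℝ => n * (∫ x, x ∂F) + (μ +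
      ((∑ j, Real.exp (s * sumLo F K j t) * Real.exp (-(s * μ))) - 1) / s)
      + (l + (∑ j, (sumHi F K j t) ^ 2) / (4 * l))) (law F m n) := j1.add i2s
  have hmono : ∫ t, optMakespan t ∂(law F m n) ≤ ∫ t : Fin n → Fin m → ℝ, (n * (∫ x, x ∂F) +
      (μ + ((∑ j, Real.exp (s * sumLo F K j t) * Real.exp (-(s * μ))) - 1) / s)
      + (l + (∑ j, (sumHi F K j t) ^ 2) / (4 * l))
      + 5 * m ^ 2 * (K + (l + (∑ i, ∑ j, (hi K (t i j)) ^ 2) / (4 * l)))) ∂(law F m n) := by
    refine integral_mono_ae (integrable_opt hF hid) (j2.add i3s) ?_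
    filter_upwards [ae_nonneg hF] with t ht
    exact opt_le_point hK hs hl hn hm hL2 hF ht
  refine hmono.trans ?_
  rw [integral_add j2 i3s, integral_add j1 i2s, integral_add (integrable_const _) i1s, e3]
  simp only [integral_const, probReal_univ, smul_eq_mul, one_mul]
  linarith

end Prob

/-! ### The asymptotic upper bound and the conclusion -/

lemma expectedError_eq {F : Measure ℝ} (hF : IsTimeLaw F) (m n : ℕ) :
    expectedError F m n = ∫ t, optMakespan t ∂(law F m n) - ((n : ℝ) + m - 1) * ∫ x, x ∂F := by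
  have := hF.prob
  unfold expectedError
  rw [integral_sub (integrable_opt hF.nonneg (hF.memLp.integrable (by norm_num))) (integrable_const _)]
  simp

lemma sqrt_log_bound {F : Measure ℝ} (hF : IsTimeLaw F) (m : ℕ) (hm : 2 ≤ m) (ε : ℝ) (hε : 0 < ε) :
    ∃ N : ℕ, ∀ n ≥ N, expectedError F m n ≤
      (Real.sqrt (2 * Var[fun x : ℝ => x; F] * Real.log m) + ε) * Real.sqrt n := by
  have := hF.prob
  set v := Var[fun x : ℝ => x; F] with hv
  have hv0 : 0 < v := hF.pos
  have hmR : (2:ℝ) ≤ m := by exact_mod_cast hm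
  have hlog : 0 < Real.log m := Real.log_pos (by linarith)
  set a := Real.sqrt (2 * v * Real.log m) with ha
  have ha0 : 0 < a := Real.sqrt_pos.2 (by positivity)
  have ha2 : a ^ 2 = 2 * v * Real.log m := Real.sq_sqrt (by positivity)
  set C : ℝ := 1 + 5 * m ^ 2 with hC
  have hC0 : 0 < C := by positivity
  set δ := ε / (4 * C) with hδ
  have hδ0 : 0 < δ := by positivity
  obtain ⟨K, hK, hw⟩ := exists_K (F := F) hF.memLp (η := 4 * δ ^ 2 / m) (by positivity)
  set w := ∫ x, (hi K x) ^ 2 ∂F with hwdef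
  have hw0 : 0 ≤ w := integral_nonneg fun x => sq_nonneg _
  set X := 1 + a * K / v + 2 * (a ^ 2 * K / v + 5 * m ^ 2 * K) / ε with hX
  obtain ⟨N, hN⟩ := exists_nat_ge (X ^ 2)
  refine ⟨N, fun n hn => ?_⟩
  have hX1 : 1 ≤ X := by
    have h1 : 0 ≤ a * K / v := by positivity
    have h2 : 0 ≤ 2 * (a ^ 2 * K / v + 5 * m ^ 2 * K) / ε := by positivity
    linarith
  have hnX : X ≤ Real.sqrt n := by
    apply Real.le_sqrt_of_sq_le
    have : (N : ℝ) ≤ n := by exact_mod_cast hn
    linarith
  set r := Real.sqrt n with hr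
  have hr0 : 0 < r := by linarith
  have hr2 : r ^ 2 = n := Real.sq_sqrt (Nat.cast_nonneg n)
  have hnpos : 0 < n := by
    have : (0:ℝ) < n := by rw [← hr2]; positivity
    exact_mod_cast this
  have hs : 0 < a / (v * r) := by positivity
  have hsK : a / (v * r) * K ≤ 1 := by
    have h1 : a * K / v ≤ r := by
      have h2 : 0 ≤ 2 * (a ^ 2 * K / v + 5 * m ^ 2 * K) / ε := by positivity
      linarith
    rw [div_mul_eq_mul_div, div_le_one (by positivity)]
    rw [div_le_iff₀ hv0] at h1
    linarith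
  have hmain := mean_opt_le (F := F) (K := K) (s := a / (v * r)) (l := δ * r) (n := n) (m := m) hK hs hsK
    (by positivity) hnpos (by omega) hF.memLp hF.nonneg
  rw [← hv, ← hwdef] at hmain
  have e1 : Real.log m / (a / (v * r)) = a * r / 2 := by
    rw [div_div_eq_mul_div, div_eq_div_iff ha0.ne' (by norm_num)]
    have : Real.log m * (v * r) * 2 = (2 * v * Real.log m) * r := by ring
    rw [this, ← ha2]; ring
  have e2 : (n : ℝ) * ((a / (v * r) / 2 + (a / (v * r)) ^ 2 * K) * v) = a * r / 2 + a ^ 2 * K / v := by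
    rw [← hr2]; field_simp
  have e3 : (m : ℝ) * n * w / (4 * (δ * r)) ≤ δ * r := by
    rw [div_le_iff₀ (by positivity), ← hr2]
    have h1 : (m : ℝ) * w ≤ 4 * δ ^ 2 := by
      rw [le_div_iff₀ (by linarith)] at hw; linarith
    have h2 : (m : ℝ) * w * r ^ 2 ≤ 4 * δ ^ 2 * r ^ 2 := mul_le_mul_of_nonneg_right h1 (sq_nonneg r)
    nlinarith
  have e4 : a ^ 2 * K / v + 5 * m ^ 2 * K ≤ ε * r / 2 := by
    have h1 : 2 * (a ^ 2 * K / v + 5 * m ^ 2 * K) / ε ≤ r := by
      have : 0 ≤ a * K / v := by positivity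
      linarith
    rw [div_le_iff₀ hε] at h1
    linarith
  have e5 : C * (2 * (δ * r)) = ε * r / 2 := by rw [hδ]; field_simp; norm_num
  have hτ : 0 ≤ ∫ x, x ∂F := integral_nonneg_of_ae hF.nonneg
  rw [expectedError_eq hF]
  rw [e1, e2] at hmain
  have e6 : (δ * r + (m : ℝ) * n * w / (4 * (δ * r))) + 5 * m ^ 2 * (K + (δ * r + m * n * w / (4 * (δ * r)))) ≤
      C * (2 * (δ * r)) + 5 * m ^ 2 * K := by
    have h1 : 5 * (m : ℝ) ^ 2 * (K + (δ * r + m * n * w / (4 * (δ * r)))) ≤ 5 * m ^ 2 * (K + (δ * r + δ * r)) := by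
      gcongr
    rw [hC]; linarith
  have e7 : ((n : ℝ) + m - 1) * ∫ x, x ∂F = n * (∫ x, x ∂F) + ((m : ℝ) - 1) * ∫ x, x ∂F := by ring
  have e8 : 0 ≤ ((m : ℝ) - 1) * ∫ x, x ∂F := mul_nonneg (by linarith) hτ
  rw [e7]
  linarith

/-- For every operation-time law `F` the optimal makespan is integrable; for every fixed number
`m ≥ 2` of machines `E[α^*_{m,n}] ≤ (√(2 σ² log m) + ε) √n` for all large `n`; consequently, whatever
`c > 0` and `n₀`, the conjectured bound `E[α^*_{m,n}] ≥ c √(m n)` (`m ≥ 3`, `n ≥ n₀`) fails. -/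
theorem result (F : Measure ℝ) (hF : IsTimeLaw F) :
    (∀ m n : ℕ, Integrable (fun t : Fin n → Fin m → ℝ => optMakespan t) (law F m n)) ∧
    (∀ m : ℕ, 2 ≤ m → ∀ ε : ℝ, 0 < ε → ∃ N : ℕ, ∀ n ≥ N, expectedError F m n ≤
      (Real.sqrt (2 * Var[fun x : ℝ => x; F] * Real.log m) + ε) * Real.sqrt n) ∧
    ∀ c : ℝ, 0 < c → ∀ n₀ : ℕ, ∃ m ≥ 3, ∃ n ≥ n₀, expectedError F m n < c * Real.sqrt (m * n) := by
  have := hF.prob
  refine ⟨fun m n => integrable_opt hF.nonneg (hF.memLp.integrable (by norm_num)),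
    fun m hm ε hε => sqrt_log_bound hF m hm ε hε, fun c hc n₀ => ?_⟩
  set v := Var[fun x : ℝ => x; F] with hv
  have hv0 : 0 < v := hF.pos
  obtain ⟨k, hk⟩ := exists_nat_gt (max 2 ((4 * v + 2) / c))
  have hk1 : (2 : ℝ) < k := (le_max_left _ _).trans_lt hk
  have hk2 : (4 * v + 2) / c < k := (le_max_right _ _).trans_lt hk
  have hk1' : 2 < k := by exact_mod_cast hk1
  have hk4 : 3 ≤ k ^ 4 := by
    calc 3 ≤ k := hk1'
      _ = k ^ 1 := (pow_one k).symm
      _ ≤ k ^ 4 := Nat.pow_le_pow_right (by omega) (by norm_num)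
  obtain ⟨N, hN⟩ := sqrt_log_bound hF (k ^ 4) (by omega) 1 one_pos
  refine ⟨k ^ 4, hk4, max (max n₀ N) 1, (le_max_left _ _).trans' (le_max_left _ _), ?_⟩
  set n := max (max n₀ N) 1 with hn
  have hn1 : 1 ≤ n := le_max_right _ _
  have hnN : N ≤ n := (le_max_right _ _).trans (le_max_left _ _)
  refine (hN n hnN).trans_lt ?_
  have hr : 0 < Real.sqrt n := Real.sqrt_pos.2 (by exact_mod_cast hn1)
  have hsplit : Real.sqrt (((k ^ 4 : ℕ) : ℝ) * n) = Real.sqrt ((k ^ 4 : ℕ) : ℝ) * Real.sqrt n :=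
    Real.sqrt_mul (by positivity) _
  rw [hsplit, ← mul_assoc]
  refine mul_lt_mul_of_pos_right ?_ hr
  have hsq : Real.sqrt ((k ^ 4 : ℕ) : ℝ) = (k : ℝ) ^ 2 := by
    rw [show ((k ^ 4 : ℕ) : ℝ) = ((k : ℝ) ^ 2) ^ 2 by push_cast; ring]
    exact Real.sqrt_sq (by positivity)
  rw [hsq]
  have hlog : Real.log ((k ^ 4 : ℕ) : ℝ) ≤ 4 * k := by
    push_cast
    rw [Real.log_pow]
    have := Real.log_le_sub_one_of_pos (show (0:ℝ) < k by linarith)
    push_cast; linarith
  have h1 : Real.sqrt (2 * v * Real.log ((k ^ 4 : ℕ) : ℝ)) ≤ (2 * v * (4 * k) + 1) / 2 := by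
    rw [Real.sqrt_le_left (by positivity)]
    have h2 : 2 * v * Real.log ((k ^ 4 : ℕ) : ℝ) ≤ 2 * v * (4 * k) :=
      mul_le_mul_of_nonneg_left hlog (by positivity)
    nlinarith [sq_nonneg (2 * v * (4 * k) - 1)]
  have h3 : (4 * v + 2) < c * k := by
    rw [div_lt_iff₀ hc] at hk2; linarith
  have h4 : (4 * v + 2) * k < c * k * k := mul_lt_mul_of_pos_right h3 (by linarith)
  nlinarith

end Pool.Agent.Results.MP_0b8746_pr.SqrtLogUpperBound
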